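import Mathlib
import Pool.Agent.R608.PerfectSidon
import Pool.Agent.R608.NaiveHaar
import Pool.Agent.R608.DaviesColoring

/-!
# Countable unions of naively Haar null sets

In ZFC, every Polish group with uncountable center (in particular every uncountable abelian
Polish group) is a countable union of naively Haar null sets.
-/

set_option autoImplicit false

open Set Pool.Agent.R608.PerfectSidon Pool.Agent.R608.NaiveHaar Pool.Agent.R608.DaviesColoring

namespace Pool.Agent.Results.MP_8b9ec4_lc.CountableCover

/-- **Main result.** Every Polish group `G` with uncountable center is the union of a sequence of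
naively Haar null sets, although `G` itself is not naively Haar null. So the naively Haar null
subsets of `G` do not form a `σ`-ideal. -/
theorem result (G : Type) [Group G] [TopologicalSpace G] [IsTopologicalGroup G] [PolishSpace G]
    [MeasurableSpace G] [BorelSpace G] (hG : ¬ (Subgroup.center G : Set G).Countable) :
    (∃ S : ℕ → Set G, (∀ n, NaivelyHaarNull (S n)) ∧ ⋃ n, S n = univ) ∧
      ¬ NaivelyHaarNull (univ : Set G) := by
  refine ⟨?_, ?_⟩
  · obtain ⟨φ, hcont, hinj, hcen, h4⟩ := exists_central_general_position G hG
    obtain ⟨c, hc⟩ := coloring (T φ) (fun n m g h hnm => countable_inter hinj hcen h4 g h hnm)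
      (fun x y n hxy => countable_params hinj hcen h4 n hxy)
    refine ⟨fun n => {x | c x = n}, fun n => ?_, ?_⟩
    · exact naivelyHaarNull_of_small hcont hinj hcen n _ fun g => Or.inl (hc g n)
    · exact eq_univ_of_forall fun x => mem_iUnion.2 ⟨c x, rfl⟩
  · rintro ⟨μ, hμ, h⟩
    have h1 := h 1 1
    have h2 : (fun x : G => 1 * x * 1) '' univ = univ :=
      eq_univ_of_forall fun x => ⟨x, mem_univ x, by simp⟩
    rw [h2] at h1
    exact (MeasureTheory.IsProbabilityMeasure.ne_zero μ) (MeasureTheory.Measure.measure_univ_eq_zero.1 h1)

end Pool.Agent.Results.MP_8b9ec4_lc.CountableCover
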