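import Mathlib
import Pool.Agent.R608.PerfectSidon
import Pool.Agent.R608.NaiveHaar

/-!
# Splitting a Polish group in two naively Haar null sets

If `non(N) < cov(N)` then no Polish group splits in two naively Haar null sets, while under
`non(N) = 𝔠` every Polish group with uncountable center does.
-/

set_option autoImplicit false

open MeasureTheory Set Pool.Agent.R608.PerfectSidon Pool.Agent.R608.NaiveHaar

namespace Pool.Agent.Results.MP_8b9ec4_lc.TwoPieces

lemma exists_nonN : ∃ S : Set unitInterval, Cardinal.mk S = nonN ∧ volume S ≠ 0 := by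
  have hne : {κ | ∃ S : Set unitInterval, Cardinal.mk S = κ ∧ volume S ≠ 0}.Nonempty :=
    ⟨_, univ, rfl, by simp⟩
  exact csInf_mem hne

/-- The negative half. -/
theorem no_partition (hlt : nonN < covN) (G : Type) [Group G] [TopologicalSpace G]
    [IsTopologicalGroup G] [PolishSpace G] [MeasurableSpace G] [BorelSpace G] :
    ¬ ∃ S : Set G, NaivelyHaarNull S ∧ NaivelyHaarNull Sᶜ := by
  rintro ⟨S, ⟨μ, hμ, hμS⟩, ⟨ν, hν, hνS⟩⟩
  obtain ⟨f, hf, hfμ⟩ := μ.exists_measurable_map_eq
  obtain ⟨g, hg, hgν⟩ := ν.exists_measurable_map_eq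
  obtain ⟨X, hXc, hX⟩ := exists_nonN
  -- the null sets to be avoided
  let N : unitInterval → Set unitInterval := fun x => g ⁻¹' {y | f x * y ∉ S}
  have hN : ∀ x, volume (N x) = 0 := by
    intro x
    refine Measure.preimage_null_of_map_null hg.aemeasurable ?_
    rw [hgν]
    have h1 : {y | f x * y ∉ S} = (fun y => (f x)⁻¹ * y * 1) '' Sᶜ := by
      ext y
      constructor
      · intro hy
        exact ⟨f x * y, hy, by group⟩
      · rintro ⟨z, hz, rfl⟩
        change f x * ((f x)⁻¹ * z * 1) ∉ S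
        rw [mul_one, mul_inv_cancel_left]
        exact hz
    rw [h1]
    exact hνS _ _
  have hcov : ⋃₀ (N '' X) ≠ univ := by
    intro h
    have h1 : covN ≤ Cardinal.mk (N '' X) :=
      csInf_le' ⟨N '' X, rfl, by rintro _ ⟨x, -, rfl⟩; exact hN x, h⟩
    have h2 : Cardinal.mk (N '' X) ≤ nonN := by
      rw [← hXc]
      exact Cardinal.mk_image_le
    exact absurd hlt (not_lt.2 (h1.trans h2))
  obtain ⟨t, ht⟩ := (ne_univ_iff_exists_notMem _).1 hcov
  have hsub : X ⊆ f ⁻¹' ((fun y => 1 * y * (g t)⁻¹) '' S) := by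
    intro x hx
    have h1 : f x * g t ∈ S := by
      by_contra hcon
      exact ht ⟨N x, mem_image_of_mem _ hx, hcon⟩
    exact ⟨f x * g t, h1, by group⟩
  refine hX (measure_mono_null hsub ?_)
  refine Measure.preimage_null_of_map_null hf.aemeasurable ?_
  rw [hfμ]
  exact hμS _ _

/-- The positive half. -/
theorem exists_partition (hnon : nonN = Cardinal.continuum) (G : Type) [Group G]
    [TopologicalSpace G] [IsTopologicalGroup G] [PolishSpace G] [MeasurableSpace G] [BorelSpace G]
    (hG : ¬ (Subgroup.center G : Set G).Countable) :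
    ∃ S : Set G, NaivelyHaarNull S ∧ NaivelyHaarNull Sᶜ := by
  obtain ⟨φ, hcont, hinj, hcen, h4⟩ := exists_central_general_position G hG
  have hGle : Cardinal.mk G ≤ Cardinal.continuum := by
    rw [← Cardinal.mk_real]
    exact Cardinal.mk_le_of_injective (measurableEmbedding_embeddingReal G).injective
  obtain ⟨e⟩ := Cardinal.eq.1 (Cardinal.mk_ord_toType (Cardinal.mk G))
  have hmin : ∀ x : G, ∃ i : (Cardinal.mk G).ord.ToType,
      (x ∈ T φ (e i) 0 ∨ x ∈ T φ (e i) 1) ∧
        ∀ j, (x ∈ T φ (e j) 0 ∨ x ∈ T φ (e j) 1) → i ≤ j := by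
    intro x
    have hne : {i | x ∈ T φ (e i) 0 ∨ x ∈ T φ (e i) 1}.Nonempty := by
      let a : Cantor := fun _ => false
      refine ⟨e.symm (x * (φ (code 0 a))⁻¹), Or.inl ⟨a, ?_⟩⟩
      rw [e.apply_symm_apply, inv_mul_cancel_right]
    obtain ⟨i, hi, hi'⟩ := (wellFounded_lt (α := (Cardinal.mk G).ord.ToType)).has_min _ hne
    exact ⟨i, hi, fun j hj => not_lt.1 (hi' j hj)⟩
  choose ρ hρ1 hρ2 using hmin
  -- the key estimate
  have hsmall : ∀ (n m : ℕ), n ≠ m → ∀ g : G, ∀ U : Set G,
      (∀ x ∈ U, ∃ i ≤ e.symm g, x ∈ T φ (e i) m) → U ⊆ T φ g n →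
      Cardinal.mk U < nonN := by
    intro n m hnm g U hU1 hU2
    have hIic : Cardinal.mk (Iic (e.symm g)) < Cardinal.continuum := by
      have h5 : Iic (e.symm g) = insert (e.symm g) (Iio (e.symm g)) := by
        ext j
        simp [le_iff_lt_or_eq, or_comm]
      rw [h5]
      refine Cardinal.mk_insert_le.trans_lt ?_
      exact Cardinal.add_lt_of_lt Cardinal.aleph0_le_continuum
        ((Cardinal.mk_Iio_toType_ord_lt (e.symm g)).trans_le hGle)
        (Cardinal.one_lt_aleph0.trans Cardinal.aleph0_lt_continuum)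
    have hsub : U ⊆ ⋃ i : Iic (e.symm g), T φ g n ∩ T φ (e i) m := by
      intro x hx
      obtain ⟨i, hi, hxi⟩ := hU1 x hx
      exact mem_iUnion.2 ⟨⟨i, hi⟩, hU2 hx, hxi⟩
    rw [hnon]
    refine ((Cardinal.mk_le_mk_of_subset hsub).trans (Cardinal.mk_iUnion_le _)).trans_lt ?_
    refine lt_of_le_of_lt (mul_le_mul_right (ciSup_le' fun i => ?_) _)
      (Cardinal.mul_lt_of_lt Cardinal.aleph0_le_continuum hIic Cardinal.aleph0_lt_continuum)
    exact (countable_inter hinj hcen h4 g (e i) hnm).le_aleph0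
  refine ⟨{x | x ∈ T φ (e (ρ x)) 1}, ?_, ?_⟩
  · refine naivelyHaarNull_of_small hcont hinj hcen 0 _ fun g => Or.inr ?_
    refine hsmall 0 1 zero_ne_one g _ ?_ fun x hx => hx.1
    rintro x ⟨hx0, hx1⟩
    refine ⟨ρ x, hρ2 x _ (Or.inl ?_), hx1⟩
    rw [e.apply_symm_apply]
    exact hx0
  · refine naivelyHaarNull_of_small hcont hinj hcen 1 _ fun g => Or.inr ?_
    refine hsmall 1 0 one_ne_zero g _ ?_ fun x hx => hx.1
    rintro x ⟨hx1, hx0⟩
    refine ⟨ρ x, hρ2 x _ (Or.inr ?_), ?_⟩
    · rw [e.apply_symm_apply]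
      exact hx1
    · exact (hρ1 x).resolve_right hx0

/-- **Main result.** (1) If `non(N) < cov(N)`, then no Polish group splits in two naively Haar null
sets. (2) If `non(N) = 𝔠`, then every Polish group with uncountable center, in particular every
uncountable abelian Polish group, splits in two naively Haar null sets. -/
theorem result :
    (nonN < covN → ∀ (G : Type) [Group G] [TopologicalSpace G] [IsTopologicalGroup G]
      [PolishSpace G] [MeasurableSpace G] [BorelSpace G],
        ¬ ∃ S : Set G, NaivelyHaarNull S ∧ NaivelyHaarNull Sᶜ) ∧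
    (nonN = Cardinal.continuum → ∀ (G : Type) [Group G] [TopologicalSpace G]
      [IsTopologicalGroup G] [PolishSpace G] [MeasurableSpace G] [BorelSpace G],
        ¬ (Subgroup.center G : Set G).Countable →
          ∃ S : Set G, NaivelyHaarNull S ∧ NaivelyHaarNull Sᶜ) :=
  ⟨fun h G => no_partition h G, fun h G _ _ _ _ _ _ hG => exists_partition h G hG⟩

end Pool.Agent.Results.MP_8b9ec4_lc.TwoPieces
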